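import Mathlib

/-!
# Large induced `d`-degenerate subgraphs of `k`-degenerate graphs: the formula fails for every `k`

For every `k ≥ 2` there is a graph on `2k + 1` vertices of degeneracy `k` in which every induced
`(k-1)`-degenerate subgraph has at most `2k - 1` vertices. Hence
`α_{k-1}(k) ≤ (2k-1)/(2k+1) < k/(k+1)`, and the conjectured formula `α_d(k) = (d+1)/(k+1)` is false
for EVERY `k ≥ 3` (with `d = k - 1`).
-/

namespace Pool.Agent.Results.MP_f95752_co.EveryDegeneracy

/-- `G` is `d`-degenerate: every (nonempty) subgraph `H` of `G`, induced or not, has minimum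
degree at most `d`, i.e. some vertex of `H` has at most `d` neighbours in `H`. -/
def IsDegenerate {V : Type*} (G : SimpleGraph V) (d : ℕ) : Prop :=
  ∀ H : G.Subgraph, H.verts.Nonempty → ∃ v ∈ H.verts, (H.neighborSet v).ncard ≤ d

/-- The degeneracy of a (finite) graph: the least `d` such that `G` is `d`-degenerate. -/
noncomputable def degeneracy {V : Type*} (G : SimpleGraph V) : ℕ :=
  sInf {d : ℕ | IsDegenerate G d}

/-- `alpha d G = α_d(G)`: the largest number of vertices of an induced subgraph of the finite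
graph `G` that is `d`-degenerate. -/
noncomputable def alpha {V : Type*} [Fintype V] (d : ℕ) (G : SimpleGraph V) : ℕ :=
  sSup {a : ℕ | ∃ S : Finset V, IsDegenerate (G.induce (S : Set V)) d ∧ S.card = a}

/-- `alphaInf d k = α_d(k)`: the infimum of `α_d(G) / |V(G)|` over all finite nonempty graphs `G`
of degeneracy exactly `k`. -/
noncomputable def alphaInf (d k : ℕ) : ℝ :=
  sInf {x : ℝ | ∃ (n : ℕ) (G : SimpleGraph (Fin n)),
    0 < n ∧ degeneracy G = k ∧ x = (alpha d G : ℝ) / (n : ℝ)}

/-- If `T ⊆ S` is nonempty and every vertex of `T` has more than `d` neighbours in `T`, then the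
subgraph induced by `S` is not `d`-degenerate. -/
theorem not_isDegenerate_induce {V : Type*} [DecidableEq V] (G : SimpleGraph V)
    [DecidableRel G.Adj] {d : ℕ} {S T : Finset V} (hTS : T ⊆ S) (hT : T.Nonempty)
    (h : ∀ v ∈ T, d + 1 ≤ (T.filter (fun w => G.Adj v w)).card) :
    ¬ IsDegenerate (G.induce (S : Set V)) d := by
  intro hdeg
  obtain ⟨t, ht⟩ := hT
  let H : (G.induce (S : Set V)).Subgraph :=
    (⊤ : (G.induce (S : Set V)).Subgraph).induce {x | (x : V) ∈ T}
  obtain ⟨v, hv, hcard⟩ := hdeg H ⟨⟨t, hTS ht⟩, ht⟩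
  have hvT : (v : V) ∈ T := hv
  have h1 := h v hvT
  have h2 : (Subtype.val '' (H.neighborSet v)) =
      ((T.filter (fun w => G.Adj (v : V) w) : Finset V) : Set V) := by
    ext w
    simp only [Set.mem_image, SimpleGraph.Subgraph.mem_neighborSet, Finset.coe_filter,
      Set.mem_ofPred_eq]
    constructor
    · rintro ⟨x, hx, rfl⟩
      have hx' : (v : V) ∈ T ∧ (x : V) ∈ T ∧ G.Adj v x := by
        simpa [H] using hx
      exact ⟨hx'.2.1, hx'.2.2⟩
    · rintro ⟨hw, hvw⟩
      refine ⟨⟨w, hTS hw⟩, ?_, rfl⟩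
      simpa [H] using ⟨hvT, hw, hvw⟩
  have h3 : (Subtype.val '' (H.neighborSet v)).ncard = (H.neighborSet v).ncard :=
    Set.ncard_image_of_injective _ Subtype.val_injective
  rw [h2, Set.ncard_coe_finset] at h3
  omega

/-- If every nonempty set `T` of vertices contains a vertex with at most `d` neighbours in `T`,
then the graph is `d`-degenerate. -/
theorem isDegenerate_of {V : Type*} [Fintype V] [DecidableEq V] (G : SimpleGraph V)
    [DecidableRel G.Adj] {d : ℕ}
    (h : ∀ T : Finset V, T.Nonempty → ∃ v ∈ T, (T.filter (fun w => G.Adj v w)).card ≤ d) :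
    IsDegenerate G d := by
  classical
  intro H hH
  obtain ⟨v, hv, hcard⟩ := h H.verts.toFinset (by simpa using hH)
  refine ⟨v, by simpa using hv, ?_⟩
  refine le_trans ?_ hcard
  rw [← Set.ncard_coe_finset]
  apply Set.ncard_le_ncard _ (Finset.finite_toSet _)
  intro w hw
  have hw' : H.Adj v w := hw
  simp only [Finset.coe_filter, Set.mem_toFinset, Set.mem_ofPred_eq]
  exact ⟨H.edge_vert hw'.symm, hw'.adj_sub⟩

/-- The graph `Gk k` on `0, …, 2k`: for `i < j` the vertices `i`, `j` are adjacent iff `j ≤ k` (a clique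
on `0, …, k`), or `i < k < j < 2k` (the `k - 1` independent vertices `k+1, …, 2k-1` are joined to
`0, …, k-1`), or `j = 2k` and `k ≤ i` (the last vertex is joined to `k, …, 2k-1`). -/
def Rk (k i j : ℕ) : Prop :=
  i < j ∧ (j ≤ k ∨ (i < k ∧ k < j ∧ j < 2 * k) ∨ (k ≤ i ∧ j = 2 * k))

/-- The graph `Gk k`. -/
def Gk (k : ℕ) : SimpleGraph (Fin (2 * k + 1)) where
  Adj i j := Rk k i j ∨ Rk k j i
  symm := ⟨fun _ _ h => Or.symm h⟩
  loopless := ⟨fun i h => by
    rcases h with h | h <;> exact absurd h.1 (lt_irrefl _)⟩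

instance (k : ℕ) : DecidableRel (Gk k).Adj := fun i j =>
  inferInstanceAs (Decidable ((((i : ℕ) < j) ∧ (((j : ℕ) ≤ k) ∨ (((i : ℕ) < k) ∧ k < j ∧ ((j : ℕ) < 2 * k)) ∨
    (k ≤ i ∧ ((j : ℕ) = 2 * k)))) ∨ (((j : ℕ) < i) ∧ (((i : ℕ) ≤ k) ∨ (((j : ℕ) < k) ∧ k < i ∧ ((i : ℕ) < 2 * k)) ∨
    (k ≤ j ∧ ((i : ℕ) = 2 * k))))))

/-- Lower bounds for degrees from sets of natural numbers. -/
theorem le_deg (k : ℕ) (T : Finset (Fin (2 * k + 1))) (v : Fin (2 * k + 1)) (X : Finset ℕ)
    (hX : ∀ x ∈ X, ∃ hx : x < 2 * k + 1, (⟨x, hx⟩ : Fin (2 * k + 1)) ∈ T ∧ (Gk k).Adj v ⟨x, hx⟩) :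
    X.card ≤ (T.filter (fun w => (Gk k).Adj v w)).card := by
  have h1 : X ⊆ (T.filter (fun w => (Gk k).Adj v w)).image (fun w : Fin (2 * k + 1) => (w : ℕ)) := by
    intro x hx
    obtain ⟨h2, h3, h4⟩ := hX x hx
    exact Finset.mem_image.2 ⟨⟨x, h2⟩, Finset.mem_filter.2 ⟨h3, h4⟩, rfl⟩
  exact (Finset.card_le_card h1).trans Finset.card_image_le

/-- `Gk k` is `k`-degenerate: the largest vertex of `T` has at most `k` neighbours in `T`. -/
theorem Gk_deg (k : ℕ) : IsDegenerate (Gk k) k := by
  apply isDegenerate_of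
  intro T hT
  refine ⟨T.max' hT, T.max'_mem hT, ?_⟩
  set v := T.max' hT with hv
  have hmax : ∀ w ∈ T, w ≤ v := fun w hw => T.le_max' w hw
  have key : ∀ X : Finset ℕ, (∀ w ∈ T, (Gk k).Adj v w → (w : ℕ) ∈ X) →
      (T.filter (fun w => (Gk k).Adj v w)).card ≤ X.card := by
    intro X hX
    apply Finset.card_le_card_of_injOn (fun w : Fin (2 * k + 1) => (w : ℕ))
    · intro w hw
      rw [Finset.mem_coe, Finset.mem_filter] at hw
      exact hX w hw.1 hw.2
    · intro a _ b _ hab
      exact Fin.ext hab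
  have hlt : ∀ w ∈ T, (Gk k).Adj v w → (w : ℕ) < v ∧ ((v : ℕ) ≤ k ∨
      ((w : ℕ) < k ∧ k < v ∧ (v : ℕ) < 2 * k) ∨ (k ≤ w ∧ (v : ℕ) = 2 * k)) := by
    intro w hw h
    rcases h with h | h
    · exact absurd (hmax w hw) (not_le.2 h.1)
    · exact h
  by_cases h1 : (v : ℕ) = 2 * k
  · refine (key (Finset.Ico k (2 * k)) fun w hw h => ?_).trans (by simp; omega)
    have h2 := hlt w hw h
    rw [Finset.mem_Ico]
    omega
  · refine (key (Finset.range k) fun w hw h => ?_).trans (by simp)
    have h2 := hlt w hw h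
    rw [Finset.mem_range]
    omega

/-- After the deletion of at most one vertex there is a set in which all degrees are at least `k`. -/
theorem Gk_core (k : ℕ) (hk : 2 ≤ k) (S : Finset (Fin (2 * k + 1))) (hS : 2 * k ≤ S.card) :
    ∃ T : Finset (Fin (2 * k + 1)), T ⊆ S ∧ T.Nonempty ∧
      ∀ v ∈ T, (k - 1) + 1 ≤ (T.filter (fun w => (Gk k).Adj v w)).card := by
  have hk1 : k - 1 + 1 = k := by omega
  rw [hk1]
  by_cases hc : ∃ c : Fin (2 * k + 1), c ∉ S
  · obtain ⟨c, hc⟩ := hc
    have hall : ∀ w, w ≠ c → w ∈ S := by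
      intro w hw
      by_contra hw2
      have h1 : S ⊆ (Finset.univ.erase c).erase w := by
        intro x hx
        refine Finset.mem_erase.2 ⟨fun h => hw2 (h ▸ hx), Finset.mem_erase.2 ⟨fun h => hc (h ▸ hx), Finset.mem_univ _⟩⟩
      have h2 := Finset.card_le_card h1
      rw [Finset.card_erase_of_mem (Finset.mem_erase.2 ⟨hw, Finset.mem_univ _⟩),
        Finset.card_erase_of_mem (Finset.mem_univ _), Finset.card_univ, Fintype.card_fin] at h2
      omega
    by_cases h1 : k < (c : ℕ)
    · refine ⟨Finset.univ.filter (fun w => (w : ℕ) ≤ k), ?_, ⟨⟨0, by omega⟩, by simp⟩, ?_⟩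
      · intro w hw
        rw [Finset.mem_filter] at hw
        exact hall w (fun h => by rw [h] at hw; omega)
      · intro v hv
        rw [Finset.mem_filter] at hv
        have h2 := le_deg k (Finset.univ.filter (fun w => (w : ℕ) ≤ k)) v ((Finset.range (k + 1)).erase v) ?_
        · rw [Finset.card_erase_of_mem (Finset.mem_range.2 (by omega)), Finset.card_range] at h2
          omega
        · intro x hx
          rw [Finset.mem_erase, Finset.mem_range] at hx
          refine ⟨by omega, ?_, ?_⟩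
          · rw [Finset.mem_filter]
            exact ⟨Finset.mem_univ _, by simp only; omega⟩
          · simp only [Gk, Rk]
            omega
    · by_cases h3 : (c : ℕ) = k
      · refine ⟨Finset.univ.filter (fun w => (w : ℕ) ≠ k ∧ (w : ℕ) < 2 * k), ?_,
          ⟨⟨0, by omega⟩, by simp; omega⟩, ?_⟩
        · intro w hw
          rw [Finset.mem_filter] at hw
          exact hall w (fun h => by rw [h] at hw; omega)
        · intro v hv
          rw [Finset.mem_filter] at hv
          by_cases h4 : (v : ℕ) < k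
          · obtain ⟨w0, hw0, hw1⟩ : ∃ w0 : ℕ, w0 < k ∧ w0 ≠ v := by
              by_cases h5 : (v : ℕ) = 0
              · exact ⟨1, by omega, by omega⟩
              · exact ⟨0, by omega, by omega⟩
            have h2 := le_deg k (Finset.univ.filter (fun w => (w : ℕ) ≠ k ∧ (w : ℕ) < 2 * k)) v
              (insert w0 (Finset.Ioo k (2 * k))) ?_
            · rw [Finset.card_insert_of_notMem (by rw [Finset.mem_Ioo]; omega), Nat.card_Ioo] at h2
              omega
            · intro x hx
              rw [Finset.mem_insert, Finset.mem_Ioo] at hx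
              refine ⟨by omega, ?_, ?_⟩
              · rw [Finset.mem_filter]
                exact ⟨Finset.mem_univ _, by simp only; omega⟩
              · simp only [Gk, Rk]
                omega
          · have h2 := le_deg k (Finset.univ.filter (fun w => (w : ℕ) ≠ k ∧ (w : ℕ) < 2 * k)) v
              (Finset.range k) ?_
            · rw [Finset.card_range] at h2
              exact h2
            · intro x hx
              rw [Finset.mem_range] at hx
              refine ⟨by omega, ?_, ?_⟩
              · rw [Finset.mem_filter]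
                exact ⟨Finset.mem_univ _, by simp only; omega⟩
              · simp only [Gk, Rk]
                omega
      · have hck : (c : ℕ) < k := by omega
        refine ⟨S, subset_rfl, ?_, ?_⟩
        · rw [← Finset.card_pos]
          omega
        · intro v hv
          have hvc : (v : ℕ) ≠ c := fun h => hc (Fin.ext h ▸ hv)
          by_cases h4 : (v : ℕ) < k ∨ (v : ℕ) = 2 * k
          · have h2 := le_deg k S v (Finset.Ico k (2 * k)) ?_
            · rw [Nat.card_Ico] at h2
              omega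
            · intro x hx
              rw [Finset.mem_Ico] at hx
              refine ⟨by omega, hall _ (fun h => ?_), ?_⟩
              · have := congrArg Fin.val h
                simp only at this
                omega
              · simp only [Gk, Rk]
                omega
          · have h2 := le_deg k S v (insert (2 * k) ((Finset.range k).erase c)) ?_
            · rw [Finset.card_insert_of_notMem (by rw [Finset.mem_erase, Finset.mem_range]; omega),
                Finset.card_erase_of_mem (Finset.mem_range.2 hck), Finset.card_range] at h2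
              omega
            · intro x hx
              rw [Finset.mem_insert, Finset.mem_erase, Finset.mem_range] at hx
              have hvlt := v.2
              refine ⟨by omega, hall _ (fun h => ?_), ?_⟩
              · have := congrArg Fin.val h
                simp only at this
                omega
              · simp only [Gk, Rk]
                omega
  · push Not at hc
    refine ⟨Finset.univ.filter (fun w => (w : ℕ) ≤ k), fun w _ => hc w, ⟨⟨0, by omega⟩, by simp⟩, ?_⟩
    intro v hv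
    rw [Finset.mem_filter] at hv
    have h2 := le_deg k (Finset.univ.filter (fun w => (w : ℕ) ≤ k)) v ((Finset.range (k + 1)).erase v) ?_
    · rw [Finset.card_erase_of_mem (Finset.mem_range.2 (by omega)), Finset.card_range] at h2
      omega
    · intro x hx
      rw [Finset.mem_erase, Finset.mem_range] at hx
      refine ⟨by omega, ?_, ?_⟩
      · rw [Finset.mem_filter]
        exact ⟨Finset.mem_univ _, by simp only; omega⟩
      · simp only [Gk, Rk]
        omega

theorem Gk_large (k : ℕ) (hk : 2 ≤ k) (S : Finset (Fin (2 * k + 1))) (hS : 2 * k ≤ S.card) :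
    ¬ IsDegenerate ((Gk k).induce (S : Set (Fin (2 * k + 1)))) (k - 1) := by
  obtain ⟨T, hTS, hT, h⟩ := Gk_core k hk S hS
  exact not_isDegenerate_induce (Gk k) hTS hT h

theorem isDegenerate_mono {V : Type*} {G : SimpleGraph V} {c d : ℕ} (hcd : c ≤ d)
    (h : IsDegenerate G c) : IsDegenerate G d := fun H hH => by
  obtain ⟨v, hv, h1⟩ := h H hH
  exact ⟨v, hv, h1.trans hcd⟩

/-- `d`-degeneracy passes to induced subgraphs. -/
theorem isDegenerate_induce {V : Type*} {G : SimpleGraph V} {d : ℕ} (h : IsDegenerate G d)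
    (s : Set V) : IsDegenerate (G.induce s) d := by
  intro H hH
  obtain ⟨v0, hv0⟩ := hH
  let H' : G.Subgraph :=
    { verts := Subtype.val '' H.verts
      Adj := fun a b => ∃ (ha : a ∈ s) (hb : b ∈ s), H.Adj ⟨a, ha⟩ ⟨b, hb⟩
      adj_sub := by
        rintro a b ⟨ha, hb, hab⟩
        exact hab.adj_sub
      edge_vert := by
        rintro a b ⟨ha, hb, hab⟩
        exact ⟨⟨a, ha⟩, H.edge_vert hab, rfl⟩
      symm := ⟨by
        rintro a b ⟨ha, hb, hab⟩
        exact ⟨hb, ha, hab.symm⟩⟩ }
  obtain ⟨v, ⟨x, hx, rfl⟩, hcard⟩ := h H' ⟨v0, ⟨v0, hv0, rfl⟩⟩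
  refine ⟨x, hx, ?_⟩
  have h1 : Subtype.val '' (H.neighborSet x) = H'.neighborSet x := by
    ext w
    constructor
    · rintro ⟨y, hy, rfl⟩
      exact ⟨x.2, y.2, hy⟩
    · rintro ⟨_, hw, hadj⟩
      exact ⟨⟨w, hw⟩, hadj, rfl⟩
  rw [← Set.ncard_image_of_injective _ Subtype.val_injective, h1]
  exact hcard

theorem Gk_not (k : ℕ) (hk : 2 ≤ k) : ¬ IsDegenerate (Gk k) (k - 1) := by
  intro h
  refine Gk_large k hk Finset.univ ?_ (isDegenerate_induce h _)
  rw [Finset.card_univ, Fintype.card_fin]
  omega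

/-- The graph `Gk k` has degeneracy exactly `k`. -/
theorem degeneracy_Gk (k : ℕ) (hk : 2 ≤ k) : degeneracy (Gk k) = k := by
  apply le_antisymm
  · exact Nat.sInf_le (Gk_deg k)
  · apply le_csInf ⟨k, Gk_deg k⟩
    intro d hd
    by_contra hlt
    exact Gk_not k hk (isDegenerate_mono (by omega) hd)

/-- Every induced `(k-1)`-degenerate subgraph of `Gk k` has at most `2k - 1` vertices. -/
theorem alpha_Gk (k : ℕ) (hk : 2 ≤ k) : alpha (k - 1) (Gk k) ≤ 2 * k - 1 := by
  apply csSup_le
  · refine ⟨0, ∅, ?_, rfl⟩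
    rintro H ⟨v, -⟩
    exact absurd v.2 (by simp)
  · rintro a ⟨S, hS, rfl⟩
    by_contra hlt
    exact Gk_large k hk S (by omega) hS

/-- **Theorem.** For every `k ≥ 2`, `α_{k-1}(k) ≤ (2k-1)/(2k+1)`, which is smaller than
`k/(k+1) = (d+1)/(k+1)` for `d = k - 1`. -/
theorem result : ∀ k : ℕ, 2 ≤ k →
    alphaInf (k - 1) k ≤ (2 * (k : ℝ) - 1) / (2 * (k : ℝ) + 1) ∧
      alphaInf (k - 1) k < (((k - 1 : ℕ) : ℝ) + 1) / ((k : ℝ) + 1) := by
  intro k hk
  have hk2 : (2 : ℝ) ≤ k := by exact_mod_cast hk
  have h1 : alphaInf (k - 1) k ≤ (2 * (k : ℝ) - 1) / (2 * (k : ℝ) + 1) := by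
    have hmem : ((alpha (k - 1) (Gk k) : ℝ) / ((2 * k + 1 : ℕ) : ℝ)) ∈
        {x : ℝ | ∃ (n : ℕ) (G : SimpleGraph (Fin n)),
          0 < n ∧ degeneracy G = k ∧ x = (alpha (k - 1) G : ℝ) / (n : ℝ)} :=
      ⟨2 * k + 1, Gk k, by omega, degeneracy_Gk k hk, rfl⟩
    have hbdd : BddBelow {x : ℝ | ∃ (n : ℕ) (G : SimpleGraph (Fin n)),
        0 < n ∧ degeneracy G = k ∧ x = (alpha (k - 1) G : ℝ) / (n : ℝ)} := by
      refine ⟨0, ?_⟩
      rintro x ⟨n, G, -, -, rfl⟩
      positivity
    refine (csInf_le hbdd hmem).trans ?_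
    have h2 : (alpha (k - 1) (Gk k) : ℝ) ≤ 2 * (k : ℝ) - 1 := by
      have h3 := alpha_Gk k hk
      have h4 : ((alpha (k - 1) (Gk k) : ℕ) : ℝ) ≤ ((2 * k - 1 : ℕ) : ℝ) := by exact_mod_cast h3
      rw [Nat.cast_sub (by omega)] at h4
      push_cast at h4
      exact h4
    push_cast
    apply div_le_div_of_nonneg_right h2
    positivity
  refine ⟨h1, lt_of_le_of_lt h1 ?_⟩
  rw [Nat.cast_sub (by omega), div_lt_div_iff₀ (by linarith) (by linarith)]
  push_cast
  nlinarith

end Pool.Agent.Results.MP_f95752_co.EveryDegeneracy
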